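import Mathlib
import Pool.Agent.Lib.MP_5bfa61_nt.Main

/-!
# Sun's supercongruence for `∑ (10k+3) C(2k,k)^2 C(3k,k) / 8^k` modulo `p^(a+4)`

For `N = 2n+1` the sum is computed exactly:
`(1/N) ∑_{k<N} (10k+3) C(2k,k)^2 C(3k,k) / 8^k
  = 3 ∏_{j ≤ n} Ω(N/j) · ∑_{l ≤ n} (N)_l (N/2)_l / l!^2`,
`Ω(x) = (1-4x²)(1-3x)(1-x/2)²/(1-x)⁴`.
All factors and terms are `1 + O((N/j)²)`, which reduces `p^a` to `p`, and for `N = p` the formula
is evaluated with harmonic sums over half of the range and Bernoulli numbers.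
-/

set_option autoImplicit false

open Finset

namespace Pool.Agent.Results.MP_5bfa61_nt.SunQ2

/-- For every odd prime `p` and every `a ≥ 1`, the rational number
`(1/p^a) ∑_{k<p^a} (10k+3)/8^k C(2k,k)^2 C(3k,k) - (3 + 49/8 p^3 B_{p-3})`
has numerator divisible by `p^4`, that is, its `p`-adic valuation is at least `4`. -/
theorem result : ∀ p : ℕ, p.Prime → p ≠ 2 → ∀ a : ℕ, 0 < a →
    (p : ℤ) ^ 4 ∣ (1 / (p : ℚ) ^ a * (∑ k ∈ range (p ^ a),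
        (10 * (k : ℚ) + 3) / 8 ^ k * (Nat.choose (2 * k) k : ℚ) ^ 2 * (Nat.choose (3 * k) k : ℚ)) -
      (3 + 49 / 8 * (p : ℚ) ^ 3 * bernoulli (p - 3))).num := by
  intro p hp h2 a ha
  have : Fact p.Prime := ⟨hp⟩
  have h := Pool.Agent.MP5bfa61.num_dvd (Pool.Agent.MP5bfa61.main p hp h2 a ha)
  have e : 1 / (p : ℚ) ^ a * (∑ k ∈ range (p ^ a),
        (10 * (k : ℚ) + 3) / 8 ^ k * (Nat.choose (2 * k) k : ℚ) ^ 2 * (Nat.choose (3 * k) k : ℚ)) =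
      Pool.Agent.MP5bfa61.SS (p ^ a) / ((p ^ a : ℕ) : ℚ) := by
    rw [Pool.Agent.MP5bfa61.SS]
    push_cast
    ring
  rw [e]
  exact h

end Pool.Agent.Results.MP_5bfa61_nt.SunQ2
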